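import Pool.Agent.Helper99.LN.Defs
import Pool.Agent.Helper45.HG.Sel

/-!
# Project LN, block CLS: from sets of primes to classes modulo `n`-th powers
-/

set_option autoImplicit false

namespace Pool.Agent.LN

open NumberField IsDedekindDomain WithZero
open scoped nonZeroDivisors
open Pool.Agent.HG (Pr nm exists_reps)

section

variable {k : Type} [Field k] [NumberField k]

theorem val_ne (v : Pr k) {c : k} (hc : c ≠ 0) : v.valuation k c ≠ 0 :=
  (Valuation.ne_zero_iff _).2 hc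

/-- `n` does not divide `v(c)` -/
theorem isRam_iff {n : ℕ} (hn : 0 < n) (v : Pr k) {c : k} (hc : c ≠ 0) :
    IsRam n v c ↔ ¬ (n : ℤ) ∣ log (v.valuation k c) := by
  constructor
  · rintro h ⟨m, hm⟩
    obtain ⟨π, hπ⟩ := v.valuation_exists_uniformizer k
    apply h (π ^ (-m))
    have h1 : v.valuation k c = exp (log (v.valuation k c)) := (exp_log (val_ne v hc)).symm
    rw [h1, hm, map_zpow₀, hπ, ← exp_zsmul, ← exp_nsmul, exp_inj]
    simp only [smul_eq_mul, nsmul_eq_mul]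
    ring
  · intro h d hd
    have hd0 : v.valuation k d ≠ 0 := by
      intro h0
      rw [h0, zero_pow hn.ne'] at hd
      exact val_ne v hc hd
    apply h
    rw [hd, log_pow]
    exact ⟨_, nsmul_eq_mul _ _⟩

/-- an ideal with all multiplicities divisible by `n` is an `n`-th power -/
theorem exists_root_ideal {n : ℕ} (I : Ideal (𝓞 k)) (hI : I ≠ 0)
    (h : ∀ v : Pr k, n ∣ multiplicity v.asIdeal I) : ∃ A : Ideal (𝓞 k), I = A ^ n := by
  classical
  have hcount : ∀ P ∈ UniqueFactorizationMonoid.normalizedFactors I,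
      n ∣ Multiset.count P (UniqueFactorizationMonoid.normalizedFactors I) := by
    intro P hP
    have hprime : Prime P := UniqueFactorizationMonoid.prime_of_normalized_factor P hP
    let v : Pr k := ⟨P, Ideal.isPrime_of_prime hprime, hprime.ne_zero⟩
    have h1 := h v
    have h2 : emultiplicity P I = Multiset.count P (UniqueFactorizationMonoid.normalizedFactors I) := by
      rw [UniqueFactorizationMonoid.emultiplicity_eq_count_normalizedFactors hprime.irreducible hI,
        normalize_eq]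
    have h3 : multiplicity P I = Multiset.count P (UniqueFactorizationMonoid.normalizedFactors I) :=
      multiplicity_eq_of_emultiplicity_eq_some h2
    rw [← h3]
    exact h1
  obtain ⟨s, hs⟩ := Multiset.exists_smul_of_dvd_count _ hcount
  refine ⟨s.prod, ?_⟩
  rw [← Multiset.prod_nsmul, ← hs]
  exact (associated_iff_eq.1 (UniqueFactorizationMonoid.prod_normalizedFactors hI)).symm

theorem units_mod_pow (L : Type) [Field L] [NumberField L] {n : ℕ} (hn : 0 < n) :
    ∃ U : Finset (𝓞 L)ˣ, ∀ u : (𝓞 L)ˣ, ∃ e ∈ U, ∃ w : (𝓞 L)ˣ, u = e * w ^ n := by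
  classical
  have hfin : Finite ((𝓞 L)ˣ ⧸ (powMonoidHom n : (𝓞 L)ˣ →* (𝓞 L)ˣ).range) := by
    have : Group.FG ((𝓞 L)ˣ) := Group.fg_iff_monoid_fg.2 inferInstance
    refine CommGroup.finite_of_fg_isMulTorsion _ ?_
    intro q
    obtain ⟨u, rfl⟩ := QuotientGroup.mk_surjective q
    rw [isOfFinOrder_iff_pow_eq_one]
    refine ⟨n, hn, ?_⟩
    rw [← QuotientGroup.mk_pow, QuotientGroup.eq_one_iff]
    exact ⟨u, rfl⟩
  obtain ⟨U, -, hU⟩ := exists_reps (Set.univ : Set (𝓞 L)ˣ)
    (fun u => (u : (𝓞 L)ˣ ⧸ (powMonoidHom n : (𝓞 L)ˣ →* (𝓞 L)ˣ).range))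
  refine ⟨U, fun u => ?_⟩
  obtain ⟨e, he, heu⟩ := hU u trivial
  obtain ⟨w, hw⟩ := QuotientGroup.eq.1 heu
  refine ⟨e, he, w, ?_⟩
  have h1 : w ^ n = e⁻¹ * u := hw
  rw [h1, mul_inv_cancel_left]

/-- finiteness of the `n`-Selmer group -/
theorem sel_n (L : Type) [Field L] [NumberField L] {n : ℕ} (hn : 0 < n) :
    ∃ F : Finset L, (∀ e ∈ F, e ≠ 0) ∧ ∀ z : L, z ≠ 0 →
      (∀ v : Pr L, (n : ℤ) ∣ log (v.valuation L z)) → ∃ e ∈ F, ∃ d : L, z = e * d ^ n := by
  classical
  obtain ⟨S, hS⟩ : ∃ S : Set L, ∀ z : L, z ∈ S ↔ z ≠ 0 ∧ ∀ v : Pr L,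
      (n : ℤ) ∣ log (v.valuation L z) := ⟨{z | _}, fun z => Iff.rfl⟩
  have hdata : ∀ z : S, ∃ (α b : 𝓞 L) (A : Ideal (𝓞 L)), α ≠ 0 ∧ b ≠ 0 ∧
      (z : L) = (α : L) * (1 / (b : L)) ^ n ∧ A ≠ 0 ∧ Ideal.span {α} = A ^ n := by
    rintro ⟨z, hz'⟩
    have hz := (hS z).1 hz'
    obtain ⟨a, b, hb, hab⟩ := IsFractionRing.div_surjective (A := 𝓞 L) z
    have hb0 : b ≠ 0 := nonZeroDivisors.ne_zero hb
    have hbL : (b : L) ≠ 0 := fun h => hb0 (RingOfIntegers.coe_eq_zero_iff.1 h)
    have ha0 : a ≠ 0 := by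
      rintro rfl
      apply hz.1
      rw [← hab, map_zero, zero_div]
    have hα : a * b ^ (n - 1) ≠ 0 := mul_ne_zero ha0 (pow_ne_zero _ hb0)
    have hαz : ((a * b ^ (n - 1) : 𝓞 L) : L) = z * (b : L) ^ n := by
      have h1 : z = (a : L) / (b : L) := hab.symm
      have h2 : (b : L) ^ n = (b : L) ^ (n - 1) * (b : L) := by
        rw [← pow_succ, Nat.sub_add_cancel hn]
      rw [h1, h2]
      push_cast
      field_simp
    have hspan : Ideal.span {a * b ^ (n - 1)} ≠ 0 := by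
      rw [Ne, Ideal.zero_eq_bot, Ideal.span_singleton_eq_bot]
      exact hα
    obtain ⟨A, hA⟩ := exists_root_ideal (n := n) (Ideal.span {a * b ^ (n - 1)}) hspan (by
      intro v
      have h1 : v.valuation L ((a * b ^ (n - 1) : 𝓞 L) : L) =
          exp (-((multiplicity v.asIdeal (Ideal.span {a * b ^ (n - 1)}) : ℕ) : ℤ)) :=
        (v.valuation_of_algebraMap (K := L) _).trans (v.intValuation_eq_exp_neg_multiplicity hα)
      have h2 : (n : ℤ) ∣ log (v.valuation L ((a * b ^ (n - 1) : 𝓞 L) : L)) := by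
        rw [hαz, map_mul, map_pow, log_mul (val_ne v hz.1) (pow_ne_zero _ (val_ne v hbL)), log_pow]
        exact dvd_add (hz.2 v) ⟨_, nsmul_eq_mul _ _⟩
      rw [h1, log_exp, dvd_neg] at h2
      exact Int.natCast_dvd_natCast.1 h2)
    refine ⟨a * b ^ (n - 1), b, A, hα, hb0, ?_, ?_, hA⟩
    · show (z : L) = _
      rw [hαz, one_div, inv_pow]
      field_simp
    · rintro rfl
      rw [zero_pow hn.ne'] at hA
      exact hspan hA
  choose α b A hα hb hz hA hAn using hdata
  obtain ⟨R, -, hR⟩ := exists_reps (Set.univ : Set S)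
    (fun z => ClassGroup.mk0 ⟨A z, mem_nonZeroDivisors_iff_ne_zero.2 (hA z)⟩)
  obtain ⟨U, hU⟩ := units_mod_pow L hn
  refine ⟨Finset.image₂ (fun (z : S) (u : (𝓞 L)ˣ) => (z : L) * ((u : 𝓞 L) : L)) R U, ?_, ?_⟩
  · intro e he
    obtain ⟨z, -, u, -, rfl⟩ := Finset.mem_image₂.1 he
    refine mul_ne_zero ((hS _).1 z.2).1 ?_
    intro h
    exact u.ne_zero (RingOfIntegers.coe_eq_zero_iff.1 h)
  · intro z hz0 hzM
    have hzS : z ∈ S := (hS z).2 ⟨hz0, hzM⟩
    obtain ⟨e, heR, he⟩ := hR ⟨z, hzS⟩ trivial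
    obtain ⟨y, hy⟩ : ∃ y : S, y = ⟨z, hzS⟩ := ⟨_, rfl⟩
    rw [← hy] at he
    have hyz : z = (y : L) := by rw [hy]
    rw [hyz]
    obtain ⟨s, t, hs, ht, hst⟩ := ClassGroup.mk0_eq_mk0_iff.1 he
    have hst' : Ideal.span {s} * A e = Ideal.span {t} * A y := hst
    have hspan : Ideal.span {s ^ n * α e} = Ideal.span {t ^ n * α y} := by
      rw [← Ideal.span_singleton_mul_span_singleton, ← Ideal.span_singleton_mul_span_singleton,
        hAn, hAn, ← Ideal.span_singleton_pow, ← Ideal.span_singleton_pow, ← mul_pow, ← mul_pow, hst']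
    obtain ⟨u, hu⟩ := Ideal.span_singleton_eq_span_singleton.1 hspan
    obtain ⟨e', he', w, hw⟩ := hU u
    have hsL : (s : L) ≠ 0 := fun h => hs (RingOfIntegers.coe_eq_zero_iff.1 h)
    have htL : (t : L) ≠ 0 := fun h => ht (RingOfIntegers.coe_eq_zero_iff.1 h)
    have hbe : (b e : L) ≠ 0 := fun h => hb e (RingOfIntegers.coe_eq_zero_iff.1 h)
    have hby : (b y : L) ≠ 0 := fun h => hb y (RingOfIntegers.coe_eq_zero_iff.1 h)
    have huL : (s : L) ^ n * (α e : L) * ((e' : 𝓞 L) : L) * ((w : 𝓞 L) : L) ^ n =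
        (t : L) ^ n * (α y : L) := by
      have h1 := congrArg (fun t : 𝓞 L => (t : L)) hu
      rw [hw] at h1
      push_cast at h1
      rw [← h1]
      ring
    refine ⟨(e : L) * ((e' : 𝓞 L) : L), Finset.mem_image₂.2 ⟨e, heR, e', he', rfl⟩,
      (b e : L) * (s : L) * ((w : 𝓞 L) : L) / ((b y : L) * (t : L)), ?_⟩
    rw [hz y, hz e]
    have h2 : (α y : L) = (s : L) ^ n * (α e : L) * ((e' : 𝓞 L) : L) * ((w : 𝓞 L) : L) ^ n /
        (t : L) ^ n := by
      rw [eq_div_iff (pow_ne_zero n htL), ← mul_comm ((t : L) ^ n), huL]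
    rw [h2]
    simp only [div_pow, mul_pow, one_pow]
    have i1 := pow_ne_zero n hbe
    have i2 := pow_ne_zero n hby
    have i3 := pow_ne_zero n htL
    field_simp

theorem fin_val {c : k} (hc : c ≠ 0) : {v : Pr k | v.valuation k c ≠ 1}.Finite := by
  have h1 := HeightOneSpectrum.Support.finite (𝓞 k) c
  have h2 := HeightOneSpectrum.Support.finite (𝓞 k) c⁻¹
  refine (h1.union h2).subset ?_
  intro v hv
  have h0 : v.valuation k c ≠ 0 := val_ne v hc
  rcases lt_or_gt_of_ne (show v.valuation k c ≠ 1 from hv) with h | h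
  · right
    show 1 < v.valuation k c⁻¹
    rw [map_inv₀, one_lt_inv₀ (zero_lt_iff.2 h0)]
    exact h
  · left
    exact h

theorem isRam_ne_one {n : ℕ} {v : Pr k} {c : k} (h : IsRam n v c) : v.valuation k c ≠ 1 := by
  intro h1
  apply h 1
  rw [map_one, one_pow, h1]

open scoped Classical in
/-- the functions with values in `ZMod n` with given support -/
theorem card_supp {α : Type*} {n : ℕ} (hn : 2 ≤ n) (A : Finset α) (G : Finset (α → ZMod n))
    (hG : ∀ g ∈ G, ∀ a, a ∈ A ↔ g a ≠ 0) : G.card ≤ (n - 1) ^ A.card := by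
  have : NeZero n := ⟨by omega⟩
  let f : G → (A → {x : ZMod n | x ≠ 0}) := fun g a => ⟨g.1 a.1, (hG g.1 g.2 a.1).1 a.2⟩
  have hf : Function.Injective f := by
    intro g g' h
    apply Subtype.ext
    funext a
    by_cases ha : a ∈ A
    · have h1 := congrArg Subtype.val (congrFun h ⟨a, ha⟩)
      exact h1
    · have h1 : g.1 a = 0 := by
        by_contra h2
        exact ha ((hG g.1 g.2 a).2 h2)
      have h1' : g'.1 a = 0 := by
        by_contra h2
        exact ha ((hG g'.1 g'.2 a).2 h2)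
      rw [h1, h1']
  have h1 := Fintype.card_le_of_injective f hf
  rw [Fintype.card_coe, Fintype.card_fun, Set.card_ne_eq, ZMod.card, Fintype.card_coe] at h1
  exact h1

end

theorem cls : StmtCLS := by
  classical
  intro k _ _ n hn
  have hn0 : 0 < n := by omega
  have : NeZero n := ⟨by omega⟩
  obtain ⟨F, hF0, hF⟩ := sel_n k hn0
  refine ⟨F.card, fun Bd Y Φ hSS T hT hTc => ?_⟩
  have hnm1 : ∀ v : Pr k, 0 < nm v := by
    intro v
    unfold Pool.Agent.HG.nm
    rw [Nat.pos_iff_ne_zero, Ne, Ideal.absNorm_eq_zero_iff]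
    exact v.ne_bot
  have hset : ∀ c : k, ∃ S : Finset (Pr k), c ≠ 0 → ∀ v, v ∈ S ↔ IsRam n v c := by
    intro c
    by_cases hc : c = 0
    · exact ⟨∅, fun h => absurd hc h⟩
    · have hfin' : {v : Pr k | IsRam n v c}.Finite :=
        (fin_val hc).subset fun v hv => isRam_ne_one hv
      exact ⟨hfin'.toFinset, fun _ v => by simp⟩
  choose S hS using hset
  have hNm : ∀ c ∈ T, ∏ v ∈ S c, nm v ≤ Y := by
    intro c hc
    obtain ⟨hc0, hcY, _⟩ := hTc c hc
    refine le_trans (le_of_eq ?_) hcY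
    unfold cond
    rw [finprod_eq_prod_of_mulSupport_subset (s := S c)]
    · refine Finset.prod_congr rfl fun v hv => ?_
      rw [if_pos ((hS c hc0 v).1 hv)]
    · intro v hv
      rw [Function.mem_mulSupport] at hv
      rw [Finset.mem_coe, hS c hc0]
      by_contra h
      exact hv (if_neg h)
  -- the exponents modulo `n`
  let g : k → Pr k → ZMod n := fun c v => ((log (v.valuation k c) : ℤ) : ZMod n)
  have hg : ∀ c ∈ T, ∀ v, v ∈ S c ↔ g c v ≠ 0 := by
    intro c hc v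
    rw [hS c (hTc c hc).1, isRam_iff hn0 v (hTc c hc).1]
    show _ ↔ ((log (v.valuation k c) : ℤ) : ZMod n) ≠ 0
    rw [Ne, ZMod.intCast_zmod_eq_zero_iff_dvd]
  have hfib : T.card ≤ F.card * (T.image g).card := by
    refine Finset.card_le_mul_card_image (f := g) T F.card ?_
    intro γ hγ
    obtain ⟨c₀, hc₀, rfl⟩ := Finset.mem_image.1 hγ
    have hc₀0 := (hTc c₀ hc₀).1
    have h1 : ∀ c ∈ T.filter (fun c => g c = g c₀), ∃ e ∈ F, ∃ d : k, c / c₀ = e * d ^ n := by
      intro c hc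
      obtain ⟨hc1, hc2⟩ := Finset.mem_filter.1 hc
      have hc0 := (hTc c hc1).1
      refine hF (c / c₀) (div_ne_zero hc0 hc₀0) fun v => ?_
      have h3 := congrFun hc2 v
      have h4 : ((log (v.valuation k c) : ℤ) : ZMod n) = ((log (v.valuation k c₀) : ℤ) : ZMod n) := h3
      rw [map_div₀, log_div (val_ne v hc0) (val_ne v hc₀0)]
      rw [← ZMod.intCast_zmod_eq_zero_iff_dvd, Int.cast_sub, h4, sub_self]
    choose! e he d hd using h1
    refine Finset.card_le_card_of_injOn e he ?_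
    intro c hc c' hc' hee
    have hc1 := (Finset.mem_filter.1 hc).1
    have hc1' := (Finset.mem_filter.1 hc').1
    have hc0' := (hTc c' hc1').1
    have g1 := hd c hc
    have g2 := hd c' hc'
    have hd' : d c' ≠ 0 := by
      intro h
      rw [h, zero_pow hn0.ne', mul_zero] at g2
      exact div_ne_zero hc0' hc₀0 g2
    have he0 := hF0 _ (he c' hc')
    refine hT c hc1 c' hc1' ⟨d c / d c', ?_⟩
    have hee' : e c = e c' := hee
    have g3 : c / c₀ = c' / c₀ * (d c / d c') ^ n := by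
      rw [g1, g2, hee', div_pow]
      have i1 := pow_ne_zero n hd'
      field_simp
    calc c = (c / c₀) * c₀ := (div_mul_cancel₀ _ hc₀0).symm
      _ = (c' / c₀ * (d c / d c') ^ n) * c₀ := by rw [g3]
      _ = c' * (d c / d c') ^ n := by
        rw [mul_comm, ← mul_assoc, mul_div_cancel₀ _ hc₀0]
  -- the number of functions
  have hcard : ((T.image g).card : ℝ) ≤ ∑ A ∈ T.image S, ((n - 1 : ℕ) : ℝ) ^ A.card := by
    have hsupp : ∀ γ ∈ T.image g, ∃ A ∈ T.image S, ∀ v, v ∈ A ↔ γ v ≠ 0 := by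
      intro γ hγ
      obtain ⟨c, hc, rfl⟩ := Finset.mem_image.1 hγ
      exact ⟨S c, Finset.mem_image_of_mem S hc, hg c hc⟩
    choose! s hs1 hs2 using hsupp
    have h1 : (T.image g).card = ∑ A ∈ T.image S, ((T.image g).filter fun γ => s γ = A).card :=
      Finset.card_eq_sum_card_fiberwise hs1
    rw [h1]
    push_cast
    refine Finset.sum_le_sum fun A _ => ?_
    have h2 := card_supp hn A ((T.image g).filter fun γ => s γ = A) (by
      intro γ hγ a
      obtain ⟨h3, h4⟩ := Finset.mem_filter.1 hγ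
      rw [← h4]
      exact hs2 γ h3 a)
    exact_mod_cast h2
  have h1 : ∑ A ∈ T.image S, ((n - 1 : ℕ) : ℝ) ^ A.card ≤ Φ := by
    refine hSS _ fun A hA => ?_
    obtain ⟨c, hc, rfl⟩ := Finset.mem_image.1 hA
    exact ⟨hNm c hc, c, (hTc c hc).1, (hTc c hc).2.2, hS c (hTc c hc).1⟩
  calc (T.card : ℝ) ≤ F.card * (T.image g).card := by exact_mod_cast hfib
    _ ≤ F.card * Φ := mul_le_mul_of_nonneg_left (hcard.trans h1) (Nat.cast_nonneg _)

end Pool.Agent.LN
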