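import Pool.Agent.Helper97.LN.CLS
import Pool.Agent.Helper5.HG.BTL

/-!
# Project LN, block FIN: the assembly
-/

set_option autoImplicit false

namespace Pool.Agent.LN

open NumberField IsDedekindDomain
open Pool.Agent.HG (Pr nm)

section

variable {k : Type} [Field k] [NumberField k]

omit [NumberField k] in
theorem cls_eq_iff {n : ℕ} (hn : 0 < n) {c c' : kˣ} :
    ((c : Cls k n) = (c' : Cls k n)) ↔ ∃ d : k, (c : k) = (c' : k) * d ^ n := by
  rw [QuotientGroup.eq]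
  constructor
  · rintro ⟨w, hw⟩
    have hw' : w ^ n = c⁻¹ * c' := hw
    refine ⟨((w⁻¹ : kˣ) : k), ?_⟩
    have h1 : c = c' * w⁻¹ ^ n := by
      rw [inv_pow, hw', mul_inv_rev, inv_inv, mul_inv_cancel_left]
    have h2 := congrArg (fun u : kˣ => (u : k)) h1
    simpa using h2
  · rintro ⟨d, hd⟩
    have hd0 : d ≠ 0 := by
      rintro rfl
      rw [zero_pow hn.ne', mul_zero] at hd
      exact c.ne_zero hd
    refine ⟨(Units.mk0 d hd0)⁻¹, ?_⟩
    show ((Units.mk0 d hd0)⁻¹) ^ n = c⁻¹ * c'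
    have h1 : c = c' * (Units.mk0 d hd0) ^ n := Units.ext (by simpa using hd)
    rw [h1, inv_pow, mul_inv_rev, mul_assoc, inv_mul_cancel, mul_one]

/-- upper bounds for sets of representatives are upper bounds for the number of classes -/
theorem card_cls_le {n : ℕ} (hn : 0 < n) (P : k → Prop) (X : ℕ) (M : ℝ)
    (h : ∀ T : Finset k, (∀ c ∈ T, ∀ c' ∈ T, (∃ d : k, c = c' * d ^ n) → c = c') →
      (∀ c ∈ T, c ≠ 0 ∧ cond n c ≤ X ∧ P c) → (T.card : ℝ) ≤ M) :
    (clsP n P X).Finite ∧ (Nat.card (clsP n P X) : ℝ) ≤ M := by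
  classical
  have hch : ∀ C : Cls k n, ∃ c : kˣ, C ∈ clsP n P X →
      (c : Cls k n) = C ∧ cond n (c : k) ≤ X ∧ P (c : k) := by
    intro C
    by_cases hC : C ∈ clsP n P X
    · obtain ⟨c, hc⟩ := hC
      exact ⟨c, fun _ => hc⟩
    · exact ⟨1, fun h => absurd h hC⟩
  choose r hr using hch
  have hinj : ∀ C ∈ clsP n P X, ∀ C' ∈ clsP n P X,
      (∃ d : k, (r C : k) = (r C' : k) * d ^ n) → C = C' := by
    intro C hC C' hC' hd
    rw [← (hr C hC).1, ← (hr C' hC').1]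
    exact (cls_eq_iff hn).2 hd
  have hG : ∀ G : Finset (Cls k n), (∀ C ∈ G, C ∈ clsP n P X) → (G.card : ℝ) ≤ M := by
    intro G hG
    have h1 := h (G.image fun C => (r C : k)) (by
      intro c hc c' hc' hd
      obtain ⟨C, hC, rfl⟩ := Finset.mem_image.1 hc
      obtain ⟨C', hC', rfl⟩ := Finset.mem_image.1 hc'
      rw [hinj C (hG C hC) C' (hG C' hC') hd]) (by
      intro c hc
      obtain ⟨C, hC, rfl⟩ := Finset.mem_image.1 hc
      exact ⟨(r C).ne_zero, (hr C (hG C hC)).2⟩)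
    rw [Finset.card_image_of_injOn] at h1
    · exact h1
    · intro C hC C' hC' h
      exact hinj C (hG C hC) C' (hG C' hC') ⟨1, by rw [one_pow, mul_one]; exact h⟩
  have hfin : (clsP n P X).Finite := by
    by_contra hinf
    have hinf' : (clsP n P X).Infinite := hinf
    obtain ⟨N, hN⟩ := exists_nat_gt M
    obtain ⟨G, hG1, hG2⟩ := hinf'.exists_subset_card_eq N
    have h1 := hG G fun C hC => hG1 hC
    rw [hG2] at h1
    linarith
  refine ⟨hfin, ?_⟩
  rw [Nat.card_eq_card_finite_toFinset hfin]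
  exact hG _ fun C hC => hfin.mem_toFinset.1 hC

theorem card_cls_ge {n : ℕ} (hn : 0 < n) (P : k → Prop) (X : ℕ) (hfin : (clsP n P X).Finite)
    (T : Finset k) (hT : ∀ c ∈ T, ∀ c' ∈ T, (∃ d : k, c = c' * d ^ n) → c = c')
    (hT2 : ∀ c ∈ T, c ≠ 0 ∧ cond n c ≤ X ∧ P c) : T.card ≤ Nat.card (clsP n P X) := by
  classical
  rw [Nat.card_eq_card_finite_toFinset hfin, ← Finset.card_attach]
  refine Finset.card_le_card_of_injOn
    (fun c => ((Units.mk0 c.1 (hT2 c.1 c.2).1 : kˣ) : Cls k n)) ?_ ?_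
  · intro c _
    rw [Set.Finite.coe_toFinset]
    exact ⟨Units.mk0 c.1 (hT2 c.1 c.2).1, rfl, (hT2 c.1 c.2).2⟩
  · intro c _ c' _ h
    exact Subtype.ext (hT c.1 c.2 c'.1 c'.2 ((cls_eq_iff hn).1 h))

theorem nm_pos (v : Pr k) : 0 < nm v := by
  unfold Pool.Agent.HG.nm
  rw [Nat.pos_iff_ne_zero, Ne, Ideal.absNorm_eq_zero_iff]
  exact v.ne_bot

/-- there are finitely many classes with bounded conductor -/
theorem twists_finite {k : Type} [Field k] [NumberField k] (n : ℕ) (hn : 2 ≤ n) (X : ℕ) :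
    (clsP (k := k) n (fun _ => True) X).Finite := by
  classical
  obtain ⟨F, hF⟩ := cls k n hn
  obtain ⟨B, hB⟩ := Pool.Agent.HG.exists_B5 k
  refine (card_cls_le (by omega) (fun _ => True) X
    (F * ∑ A ∈ (B X).powerset, ((n - 1 : ℕ) : ℝ) ^ A.card) fun T h1 h2 => ?_).1
  refine hF (fun _ => True) X _ (fun SS hSS => ?_) T h1 h2
  refine Finset.sum_le_sum_of_subset_of_nonneg ?_ fun _ _ _ => by positivity
  intro A hA
  rw [Finset.mem_powerset]
  intro v hv
  rw [hB]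
  refine le_trans ?_ (hSS A hA).1
  exact Nat.le_of_dvd (Finset.prod_pos fun w _ => nm_pos w) (Finset.dvd_prod_of_mem _ hv)

theorem cond_one (n : ℕ) : cond n (1 : k) = 1 := by
  classical
  unfold cond
  refine finprod_eq_one_of_forall_eq_one fun v => if_neg fun h => ?_
  exact isRam_ne_one h (map_one _)

/-- the lower bound for the number of classes -/
theorem cls_lower (hLOW : StmtLOW) (hCLO : StmtCLO) (k : Type) [Field k] [NumberField k] (n : ℕ)
    (hn : 2 ≤ n) : ∃ c₁ : ℝ, 0 < c₁ ∧ ∀ X : ℕ, 3 ≤ X →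
      c₁ * X * Real.log X ^ (((n - 1 : ℕ) : ℝ) - 1) ≤
        Nat.card (clsP (k := k) n (fun _ => True) X) := by
  classical
  obtain ⟨Bad, D, hBad, hD, hclo⟩ := hCLO k n hn
  obtain ⟨c₀, hc₀, hlow⟩ := hLOW k (n - 1) (by omega) Bad hBad
  obtain ⟨w, hw⟩ : ∃ w : ℝ, w = ((n - 1 : ℕ) : ℝ) - 1 := ⟨_, rfl⟩
  have hw0 : 0 ≤ w := by
    have h1 : (1 : ℝ) ≤ ((n - 1 : ℕ) : ℝ) := by exact_mod_cast (by omega : 1 ≤ n - 1)
    linarith
  rw [← hw] at hlow ⊢
  -- large X
  have hDR : (0 : ℝ) < D := by exact_mod_cast hD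
  have hcard1 : ∀ X : ℕ, 3 ≤ X → 1 ≤ Nat.card (clsP (k := k) n (fun _ => True) X) := by
    intro X hX
    have h1 := card_cls_ge (k := k) (by omega) (fun _ => True) X (twists_finite n hn X) {1}
      (by
        intro c hc c' hc' _
        rw [Finset.mem_singleton.1 hc, Finset.mem_singleton.1 hc'])
      (by
        intro c hc
        rw [Finset.mem_singleton.1 hc, cond_one]
        exact ⟨one_ne_zero, by omega, trivial⟩)
    rwa [Finset.card_singleton] at h1
  -- the threshold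
  obtain ⟨X₀, hX₀⟩ : ∃ X₀ : ℕ, X₀ = 9 * (D + 1) ^ 2 := ⟨_, rfl⟩
  have hlarge : ∀ X : ℕ, X₀ ≤ X → c₀ / (2 * D) * (1 / 4) ^ w * X * Real.log X ^ w ≤
      Nat.card (clsP (k := k) n (fun _ => True) X) := by
    intro X hX
    have hXD : 9 * (D + 1) ^ 2 ≤ X := hX₀ ▸ hX
    have hD1 : 1 ≤ D := hD
    obtain ⟨Y, hY⟩ : ∃ Y : ℕ, Y = X / D := ⟨_, rfl⟩
    have hDY : D * Y ≤ X := by rw [hY]; exact Nat.mul_div_le X D
    have h3D : 3 * D ≤ X := by nlinarith
    have hY3 : 3 ≤ Y := by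
      rw [hY, Nat.le_div_iff_mul_le hD]
      exact h3D
    have hXY : X < D * (Y + 1) := by
      rw [hY]
      exact Nat.lt_mul_div_succ X hD
    have hYX : (X : ℝ) / (2 * D) ≤ Y := by
      rw [div_le_iff₀ (by positivity)]
      have h1 : (X : ℝ) < D * (Y + 1) := by exact_mod_cast hXY
      have h2 : (3 : ℝ) ≤ Y := by exact_mod_cast hY3
      nlinarith
    have hX1 : (1 : ℝ) ≤ X := by
      have : 1 ≤ X := by omega
      exact_mod_cast this
    have hlogY : (1 / 4 : ℝ) * Real.log X ≤ Real.log Y := by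
      -- X ≤ Y ^ 4
      have hY0 : (0 : ℝ) < Y := by
        have h2 : (3 : ℝ) ≤ Y := by exact_mod_cast hY3
        linarith
      have h1 : (X : ℝ) ≤ (Y : ℝ) ^ 4 := by
        have h2 : X ≤ Y ^ 4 := by
          have i1 : D ≤ Y := by
            rw [hY, Nat.le_div_iff_mul_le hD]
            nlinarith
          calc X ≤ D * (Y + 1) := hXY.le
            _ ≤ Y * (2 * Y) := Nat.mul_le_mul i1 (by omega)
            _ = 2 * (Y * Y) := by ring
            _ ≤ (Y * Y) * (Y * Y) := Nat.mul_le_mul_right _ (by nlinarith)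
            _ = Y ^ 4 := by ring
        exact_mod_cast h2
      have h2 := Real.log_le_log (by linarith) h1
      rw [Real.log_pow] at h2
      push_cast at h2
      linarith
    obtain ⟨S, hS1, hS2⟩ := hlow Y hY3
    obtain ⟨T, hT1, hT2, hT3⟩ := hclo Y S hS1
    have h1 := card_cls_ge (k := k) (by omega) (fun _ => True) X (twists_finite n hn X) T hT1
      fun c hc => ⟨(hT2 c hc).1, (hT2 c hc).2.trans hDY, trivial⟩
    have h2 : ((T.card : ℕ) : ℝ) ≤ Nat.card (clsP (k := k) n (fun _ => True) X) := by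
      exact_mod_cast h1
    refine le_trans ?_ ((hS2.trans hT3).trans h2)
    have hlog0 : 0 ≤ Real.log X := Real.log_nonneg hX1
    calc c₀ / (2 * D) * (1 / 4) ^ w * X * Real.log X ^ w
        = c₀ * (X / (2 * D)) * ((1 / 4) ^ w * Real.log X ^ w) := by ring
      _ = c₀ * (X / (2 * D)) * ((1 / 4) * Real.log X) ^ w := by
          rw [Real.mul_rpow (by norm_num) hlog0]
      _ ≤ c₀ * Y * Real.log Y ^ w := by
          refine mul_le_mul (mul_le_mul_of_nonneg_left hYX hc₀.le)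
            (Real.rpow_le_rpow (by positivity) hlogY hw0) (by positivity) (by positivity)
  -- all X
  obtain ⟨M, hM⟩ : ∃ M : ℝ, M = (X₀ : ℝ) * Real.log X₀ ^ w + 1 := ⟨_, rfl⟩
  have hX₀9 : 9 ≤ X₀ := by
    rw [hX₀]
    nlinarith [Nat.zero_le D]
  have hX₀R : (1 : ℝ) ≤ X₀ := by exact_mod_cast (by omega : 1 ≤ X₀)
  have hM0 : 0 < M := by
    have : 0 ≤ Real.log X₀ := Real.log_nonneg hX₀R
    rw [hM]
    positivity
  obtain ⟨a, ha⟩ : ∃ a : ℝ, a = c₀ / (2 * D) * (1 / 4) ^ w := ⟨_, rfl⟩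
  have ha0 : 0 < a := by rw [ha]; positivity
  refine ⟨min a (1 / M), lt_min ha0 (by positivity), fun X hX => ?_⟩
  have hX1 : (1 : ℝ) ≤ X := by exact_mod_cast (by omega : 1 ≤ X)
  have hlog0 : 0 ≤ Real.log X := Real.log_nonneg hX1
  rcases le_or_gt X₀ X with hXX | hXX
  · refine le_trans ?_ (hlarge X hXX)
    rw [← ha]
    exact mul_le_mul_of_nonneg_right (mul_le_mul_of_nonneg_right (min_le_left _ _) (by linarith))
      (by positivity)
  · have h1 : (1 : ℝ) ≤ Nat.card (clsP (k := k) n (fun _ => True) X) := by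
      exact_mod_cast hcard1 X hX
    refine le_trans ?_ h1
    have h2 : (X : ℝ) * Real.log X ^ w ≤ M := by
      have hXR : (X : ℝ) ≤ X₀ := by exact_mod_cast hXX.le
      rw [hM]
      have h3 : Real.log X ≤ Real.log X₀ := Real.log_le_log (by linarith) hXR
      have h4 : (X : ℝ) * Real.log X ^ w ≤ X₀ * Real.log X₀ ^ w :=
        mul_le_mul hXR (Real.rpow_le_rpow hlog0 h3 hw0) (by positivity) (by linarith)
      linarith
    calc min a (1 / M) * X * Real.log X ^ w = min a (1 / M) * (X * Real.log X ^ w) := by ring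
      _ ≤ 1 / M * M := mul_le_mul (min_le_right _ _) h2 (by positivity) (by positivity)
      _ = 1 := by field_simp

/-- the upper bound for the number of classes which are unramified at a set of primes of positive
density -/
theorem cls_upper (hUP : StmtUP) (k : Type) [Field k] [NumberField k] (n : ℕ) (hn : 2 ≤ n)
    (P : k → Prop) (Q Bad : Set (Pr k)) (hBad : Bad.Finite) (δ C : ℝ)
    (B : ℕ → Finset (Pr k)) (hB : ∀ x v, v ∈ B x ↔ nm v ≤ x)
    (hQ : ∀ c : k, c ≠ 0 → P c → ∀ v ∈ Q, v ∉ Bad → ¬ IsRam n v c)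
    (hsum : ∀ x : ℕ, 2 ≤ x → δ * Real.log (Real.log x) - C ≤
      Finset.sum (@Finset.filter _ (· ∈ Q) (Classical.decPred _) (B x)) fun v => (1 : ℝ) / nm v) :
    ∃ C₁ : ℝ, 0 < C₁ ∧ ∀ X : ℕ, 3 ≤ X → (Nat.card (clsP n P X) : ℝ) ≤
      C₁ * X * Real.log X ^ (((n - 1 : ℕ) : ℝ) * (1 - δ) - 1) := by
  classical
  obtain ⟨F, hF⟩ := cls k n hn
  obtain ⟨C', hC', hup⟩ := hUP k (n - 1) (by omega) (Q \ Bad) δ (C + ∑ v ∈ hBad.toFinset,
    (1 : ℝ) / nm v) B hB (by
      intro x hx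
      have h1 := hsum x hx
      have h2 : (Finset.sum (@Finset.filter _ (· ∈ Q) (Classical.decPred _) (B x))
          fun v => (1 : ℝ) / nm v) ≤
          (Finset.sum (@Finset.filter _ (· ∈ Q \ Bad) (Classical.decPred _) (B x))
            fun v => (1 : ℝ) / nm v) + ∑ v ∈ hBad.toFinset, (1 : ℝ) / nm v := by
        refine le_trans ?_ (Finset.sum_union_inter (s₁ := @Finset.filter _ (· ∈ Q \ Bad)
          (Classical.decPred _) (B x)) (s₂ := hBad.toFinset)
          (f := fun v => (1 : ℝ) / nm v)).le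
        have h3 : 0 ≤ ∑ v ∈ (@Finset.filter _ (· ∈ Q \ Bad) (Classical.decPred _) (B x)) ∩
            hBad.toFinset, (1 : ℝ) / nm v := Finset.sum_nonneg fun _ _ => by positivity
        refine le_trans ?_ (le_add_of_nonneg_right h3)
        refine Finset.sum_le_sum_of_subset_of_nonneg ?_ fun _ _ _ => by positivity
        intro v hv
        simp only [Finset.mem_filter, Finset.mem_union, Set.Finite.mem_toFinset, Set.mem_sdiff]
          at hv ⊢
        by_cases hvB : v ∈ Bad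
        · exact Or.inr hvB
        · exact Or.inl ⟨hv.1, hv.2, hvB⟩
      linarith)
  refine ⟨F * C' + 1, by positivity, fun X hX => ?_⟩
  have hX1 : (1 : ℝ) ≤ X := by exact_mod_cast (by omega : 1 ≤ X)
  have hlog0 : 0 ≤ Real.log X := Real.log_nonneg hX1
  have h1 := (card_cls_le (n := n) (by omega) P X (F * (C' * X *
    Real.log X ^ (((n - 1 : ℕ) : ℝ) * (1 - δ) - 1))) fun T h1 h2 => ?_).2
  · refine h1.trans ?_
    have h2 : 0 ≤ (X : ℝ) * Real.log X ^ (((n - 1 : ℕ) : ℝ) * (1 - δ) - 1) := by positivity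
    calc (F : ℝ) * (C' * X * Real.log X ^ (((n - 1 : ℕ) : ℝ) * (1 - δ) - 1))
        = F * C' * (X * Real.log X ^ (((n - 1 : ℕ) : ℝ) * (1 - δ) - 1)) := by ring
      _ ≤ (F * C' + 1) * (X * Real.log X ^ (((n - 1 : ℕ) : ℝ) * (1 - δ) - 1)) :=
          mul_le_mul_of_nonneg_right (by linarith) h2
      _ = _ := by ring
  · refine hF P X _ (fun SS hSS => ?_) T h1 h2
    refine hup X hX SS fun s hs => ⟨(hSS s hs).1, fun v hv hvs => ?_⟩
    obtain ⟨c, hc0, hPc, hc⟩ := (hSS s hs).2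
    exact hQ c hc0 hPc v hv.1 hv.2 ((hc v).1 hvs)

end

theorem finLN_of (hLOC : StmtLOC) (hDEN : StmtDEN) (hUP : StmtUP) (hLOW : StmtLOW)
    (hCLO : StmtCLO) : StmtFinLN := by
  classical
  intro k K0 _ _ _ _ n h hn hG hσ
  refine ⟨twists_finite n hn, ?_⟩
  obtain ⟨σ, hσ⟩ := hσ
  obtain ⟨Bad, hBad, hloc⟩ := hLOC k K0 n h hn hG
  obtain ⟨B, hB⟩ := Pool.Agent.HG.exists_B5 k
  obtain ⟨δ, C, Q, hδ, hQ, hsum⟩ := hDEN k K0 n h hn hG σ hσ B hB
  obtain ⟨C₁, hC₁, hupper⟩ := cls_upper hUP k n hn (fun c => HasSec n h c) Q Bad hBad δ C B hB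
    (by
      intro c hc0 hsec v hvQ hvB hram
      obtain ⟨O, F, p, f, hD, hF⟩ := hloc v hvB c hc0 hram hsec
      exact hQ v hvQ O F p f hD hF)
    (by
      intro x hx
      have h1 := (abs_le.1 (hsum x hx)).1
      have h2 : (Finset.sum (@Finset.filter _ (· ∈ Q) (Classical.decPred _) (B x))
          fun v => (1 : ℝ) / nm v) = ∑ v ∈ (B x).filter (· ∈ Q), (1 : ℝ) / nm v := by
        congr
      rw [h2]
      linarith)
  obtain ⟨c₁, hc₁, hlower⟩ := cls_lower hLOW hCLO k n hn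
  have hw1 : (1 : ℝ) ≤ ((n - 1 : ℕ) : ℝ) := by exact_mod_cast (by omega : 1 ≤ n - 1)
  refine ⟨((n - 1 : ℕ) : ℝ) * δ, C₁ / c₁, by positivity, by positivity, fun X hX => ?_⟩
  have hX3 : (3 : ℝ) ≤ X := by exact_mod_cast hX
  have hlog : 0 < Real.log X := Real.log_pos (by linarith)
  have h1 := hupper X hX
  have h2 := hlower X hX
  refine h1.trans ?_
  rw [le_div_iff₀ (Real.rpow_pos_of_pos hlog _)]
  calc C₁ * X * Real.log X ^ (((n - 1 : ℕ) : ℝ) * (1 - δ) - 1) *
        Real.log X ^ (((n - 1 : ℕ) : ℝ) * δ)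
      = C₁ * X * (Real.log X ^ (((n - 1 : ℕ) : ℝ) * (1 - δ) - 1) *
        Real.log X ^ (((n - 1 : ℕ) : ℝ) * δ)) := by ring
    _ = C₁ * X * Real.log X ^ (((n - 1 : ℕ) : ℝ) - 1) := by
        rw [← Real.rpow_add hlog]
        congr 2
        ring
    _ = C₁ / c₁ * (c₁ * X * Real.log X ^ (((n - 1 : ℕ) : ℝ) - 1)) := by field_simp
    _ ≤ C₁ / c₁ * Nat.card (clsP (k := k) n (fun _ => True) X) :=
        mul_le_mul_of_nonneg_left h2 (by positivity)

end Pool.Agent.LN
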